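import Mathlib
import Pool.Agent.Run7.h320.D.TC

set_option autoImplicit false

/-!
# Extending total colourings of distance-3 matchings in dense graphs
-/

namespace Pool.Agent.Results.MP_db9399_co.DenseGraphs

open Finset

/-- The colours `c` of the vertices and `d` of the edges form a total colouring of `G`: adjacent
vertices get different colours, distinct edges with a common end get different colours, and an edge
gets a colour different from the colours of its ends. (Values of `d` at pairs that are not edges of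
`G` play no role.) -/
structure IsTotalColoring {V : Type} (G : SimpleGraph V) (c : V → ℕ) (d : Sym2 V → ℕ) :
    Prop where
  vert : ∀ u v, G.Adj u v → c u ≠ c v
  edge : ∀ u v w, G.Adj u v → G.Adj u w → v ≠ w → d s(u, v) ≠ d s(u, w)
  inc : ∀ u v, G.Adj u v → d s(u, v) ≠ c u

/-- `H` (with vertex set `H.support`) is a distance-3 matching in `G`. -/
structure IsDistThreeMatching {V : Type} (G H : SimpleGraph V) : Prop where
  le : H ≤ G
  matching : ∀ u v w, H.Adj u v → H.Adj u w → v = w
  dist : ∀ u ∈ H.support, ∀ v ∈ H.support, u ≠ v → ¬ H.Adj u v → 3 ≤ G.edist u v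

/-- Every total colouring of `H` with the colours `0, …, k - 1` extends to a total colouring of
`G` with these colours. -/
def Extends {V : Type} (G H : SimpleGraph V) (k : ℕ) : Prop :=
  ∀ (c : V → ℕ) (d : Sym2 V → ℕ), IsTotalColoring H c d →
    (∀ v ∈ H.support, c v < k) → (∀ e ∈ H.edgeSet, d e < k) →
    ∃ (c' : V → ℕ) (d' : Sym2 V → ℕ), IsTotalColoring G c' d' ∧
      (∀ v ∈ H.support, c' v = c v) ∧ (∀ e ∈ H.edgeSet, d' e = d e) ∧
      (∀ v, c' v < k) ∧ ∀ e ∈ G.edgeSet, d' e < k

/-- **Extending total colourings of distance-3 matchings in dense graphs.**  For every `δ > 0` there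
are `ε > 0` and `n₀` such that for every graph `G` on `n ≥ n₀` vertices with at most
`(1 - δ) n ^ 2 / 2` edges, all degrees at most `D` and some degree at least `(1 - ε) n`, and for
every distance-3 matching `H` in `G`, every total colouring of `H` with `k ≥ D + 1` colours extends
to a total colouring of `G` with these colours. -/
theorem result : ∀ δ : ℝ, 0 < δ → ∃ ε : ℝ, 0 < ε ∧ ∃ n₀ : ℕ,
    ∀ (V : Type) [Fintype V] (G H : SimpleGraph V) (D : ℕ), n₀ ≤ Fintype.card V →
      (∀ v, (G.neighborSet v).ncard ≤ D) →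
      (∃ v, (1 - ε) * Fintype.card V ≤ (G.neighborSet v).ncard) →
      2 * (G.edgeSet.ncard : ℝ) ≤ (1 - δ) * (Fintype.card V : ℝ) ^ 2 →
      IsDistThreeMatching G H → ∀ k : ℕ, D + 1 ≤ k → Extends G H k := by
  classical
  intro δ hδ
  obtain ⟨δ', hδ'⟩ : ∃ δ' : ℝ, δ' = min δ 1 := ⟨_, rfl⟩
  have hd0 : 0 < δ' := by
    rw [hδ']
    exact lt_min hδ one_pos
  have hd1 : δ' ≤ 1 := by
    rw [hδ']
    exact min_le_right _ _
  have hdd : δ' ≤ δ := by
    rw [hδ']
    exact min_le_left _ _
  obtain ⟨ε, hε, n₀, h⟩ := Pool.Agent.Run7.h320.D.tcx (δ' / 2) (by linarith) (by linarith)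
  refine ⟨ε, hε, max n₀ 1, ?_⟩
  intro V _ G H D hn hdeg hbig hE hH k hk c d hcd hck hdk
  obtain ⟨z, hz⟩ := hbig
  have hV : 0 < Fintype.card V := lt_of_lt_of_le one_pos ((le_max_right _ _).trans hn)
  have hlow := Pool.Agent.Run7.h320.D.low_deg G hd0 hd1 hV (hE.trans (by
    apply mul_le_mul_of_nonneg_right _ (by positivity)
    linarith))
  obtain ⟨D', hD'⟩ : ∃ D' : ℕ, D' = min D (Fintype.card V) := ⟨_, rfl⟩
  have hDD : D' ≤ D := by
    rw [hD']
    exact min_le_left _ _
  obtain ⟨P, hP⟩ : ∃ P : Finset V, P = univ.filter (fun v => v ∈ H.support) := ⟨_, rfl⟩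
  have memP : ∀ v, v ∈ P ↔ v ∈ H.support := fun v => by simp [hP]
  have memP' : ∀ v, v ∈ P ↔ ∃ w, H.Adj v w := by
    intro v
    rw [memP]
    exact Iff.rfl
  have p1 : ∀ u ∈ P, ∀ v ∈ P, G.Adj u v → H.Adj u v := by
    intro u hu v hv huv
    by_contra hnot
    have h3 := hH.dist u ((memP u).1 hu) v ((memP v).1 hv) huv.ne hnot
    have h4 := SimpleGraph.Walk.edist_le (SimpleGraph.Walk.cons huv SimpleGraph.Walk.nil)
    have h5 := h3.trans h4
    simp only [SimpleGraph.Walk.length_cons, SimpleGraph.Walk.length_nil] at h5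
    norm_cast at h5
  have p2 : ∀ u ∈ P, ∀ v ∈ P, ∀ w, G.Adj w u → G.Adj w v → u ≠ v → H.Adj u v := by
    intro u hu v hv w h1 h2 huv
    by_contra hnot
    have h3 := hH.dist u ((memP u).1 hu) v ((memP v).1 hv) huv hnot
    have h4 := SimpleGraph.Walk.edist_le
      (SimpleGraph.Walk.cons h1.symm (SimpleGraph.Walk.cons h2 SimpleGraph.Walk.nil))
    have h5 := h3.trans h4
    simp only [SimpleGraph.Walk.length_cons, SimpleGraph.Walk.length_nil] at h5
    norm_cast at h5
  have p3 : ∀ v, (P.filter (fun p => G.Adj v p)).card ≤ 2 := by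
    intro v
    by_contra hcon
    rw [not_le, Finset.two_lt_card] at hcon
    obtain ⟨p, hp, q, hq, r, hr, hpq, hpr, hqr⟩ := hcon
    rw [Finset.mem_filter] at hp hq hr
    exact hqr (hH.matching p q r (p2 p hp.1 q hq.1 v hp.2 hq.2 hpq)
      (p2 p hp.1 r hr.1 v hp.2 hr.2 hpr))
  obtain ⟨c', d', c1, c2, c3, c4, c5, c6, c7⟩ := h V G H D' k _ P z c d ((le_max_left _ _).trans hn)
    (by
      intro v
      rw [hD', le_min_iff]
      refine ⟨?_, card_le_univ _⟩
      rw [Pool.Agent.Run7.h320.D.nbr_ncard]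
      exact hdeg v) (by
      rw [hD']
      exact min_le_right _ _) (by omega) (by
      rw [Pool.Agent.Run7.h320.D.nbr_ncard]
      exact hz) hlow (fun w hw => (mem_filter.1 hw).2) hH.le memP' hH.matching p1 p3 hcd.vert
      hcd.inc (fun v hv => hck v ((memP v).1 hv)) hdk
  exact ⟨c', d', ⟨c1, c2, c3⟩, fun v hv => c4 v ((memP v).2 hv), c5, c6, c7⟩

end Pool.Agent.Results.MP_db9399_co.DenseGraphs
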