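import Pool.Agent.Results.MP_db9399_co.TwoPartLists
import Pool.Agent.Run7.h320.RG.J

/-!
# Extending total colourings of distance-3 matchings in random graphs of logarithmic degree
-/

set_option autoImplicit false

namespace Pool.Agent.Results.MP_db9399_co.LogDegreeRandomGraphs

open Pool.Agent.Results.MP_db9399_co.TwoPartLists (IsDistThreeMatching ListExtends tcN)

/-- `IsMaxDegree G D`: the maximum degree of `G` is `D`. -/
def IsMaxDegree {V : Type} (G : SimpleGraph V) (D : ℕ) : Prop :=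
  (∀ v, (G.neighborSet v).ncard ≤ D) ∧ ∃ v, (G.neighborSet v).ncard = D

/-- The probability of the property `P` for the random graph `G(n, q)` on the vertices `0, …, n - 1`:
the graph `G` has the weight `q ^ m (1 - q) ^ (n (n - 1) / 2 - m)`, where `m` is the number of its
edges. -/
noncomputable def prob {n : ℕ} (q : ℝ) (P : SimpleGraph (Fin n) → Prop) : ℝ := by
  classical exact ∑ G : SimpleGraph (Fin n), if P G then
    q ^ G.edgeSet.ncard * (1 - q) ^ (n.choose 2 - G.edgeSet.ncard) else 0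

/-- For all `K > 0` and `δ > 0` there is `n₀` such that for all `n ≥ n₀` and all `q` with
`1 ≤ q n ≤ K log n` the following holds with probability at least `1 - δ` for the random graph
`G(n, q)`, where `D` is its maximum degree: for every `k ≥ D + 1`, whenever every vertex and every
edge has a list of at least `k` colours, every total colouring of every distance-3 matching `H`
extends to a total colouring in which the vertices and edges outside `H` get colours from their
lists. -/
theorem result (K δ : ℝ) (hδ : 0 < δ) : ∃ n₀ : ℕ, ∀ n : ℕ, n₀ ≤ n → ∀ q : ℝ,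
    1 ≤ q * n → q * n ≤ K * Real.log n →
    1 - δ ≤ prob q (fun G : SimpleGraph (Fin n) =>
      ∃ D, IsMaxDegree G D ∧ ∀ H : SimpleGraph (Fin n), IsDistThreeMatching G H →
        ∀ k : ℕ, D + 1 ≤ k → ListExtends G H k) := by
  classical
  obtain ⟨ε, hε0, hε1, h⟩ := Pool.Agent.Run7.h320.RG.whp_tame K
  obtain ⟨D₁, hD₁⟩ := tcN (ε / 2) (by positivity)
  obtain ⟨n₀, hn₀⟩ := h (max (max D₁ ⌈4 / ε⌉₊) (max 4 ⌈1 / (1 : ℝ)⌉₊)) δ hδ
  refine ⟨n₀, fun n hn q hq hqK => ?_⟩
  rw [mul_comm] at hq hqK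
  refine hn₀ n hn q hq hqK _ ?_
  rintro G ⟨D, k, hD, hk, hmax, hex, hfar⟩
  have hD1 : D₁ ≤ D := ((le_max_left _ _).trans (le_max_left _ _)).trans hD
  have hD2 : 4 / ε ≤ (D : ℝ) := (Nat.le_ceil _).trans
    (by exact_mod_cast ((le_max_right _ _).trans (le_max_left _ _)).trans hD)
  have hD4 : 4 ≤ D := ((le_max_left _ _).trans (le_max_right _ _)).trans hD
  rw [div_le_iff₀ hε0] at hD2
  have hD0 : (0 : ℝ) ≤ D := Nat.cast_nonneg _
  have hsplit : (1 - ε / 2) * (D : ℝ) = (1 - ε) * D + (D * ε) / 2 := by ring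
  have hpos : (0 : ℝ) ≤ (1 - ε) * D := mul_nonneg (by linarith) hD0
  obtain ⟨T, hT⟩ : ∃ T : Finset (Fin n), T = Finset.univ.filter
    (fun v => k ≤ (G.neighborSet v).ncard) := ⟨_, rfl⟩
  have memT : ∀ v, v ∈ T ↔ k ≤ (G.neighborSet v).ncard := by
    intro v
    rw [hT, Finset.mem_filter]
    simp
  have hT0 : ∀ v ∈ T, {w : Fin n | w ∈ T ∧ G.Adj v w}.ncard = 0 := by
    intro v hv
    rw [Set.ncard_eq_zero (Set.toFinite _)]
    ext w
    constructor
    · rintro ⟨hw, hw'⟩
      exact (hfar v w (G.ne_of_adj hw') ((memT v).1 hv) ((memT w).1 hw)).1 hw'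
    · intro hw
      exact absurd hw (Set.notMem_empty w)
  have hT1 : ∀ v, {w : Fin n | w ∈ T ∧ G.Adj v w}.ncard ≤ 1 := by
    intro v
    rw [Set.ncard_le_one (Set.toFinite _)]
    rintro a ⟨ha, ha'⟩ b ⟨hb, hb'⟩
    by_contra hab
    exact (hfar a b hab ((memT a).1 ha) ((memT b).1 hb)).2 v ⟨G.adj_symm ha', G.adj_symm hb'⟩
  have hT1R : ∀ v, ({w : Fin n | w ∈ T ∧ G.Adj v w}.ncard : ℝ) ≤ 1 := by
    intro v
    exact_mod_cast hT1 v
  have hlow : ∀ x, x ∉ T → ((G.neighborSet x).ncard : ℝ) ≤ (1 - ε) * D := by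
    intro x hx
    rw [memT, not_le] at hx
    have h2 : ((G.neighborSet x).ncard : ℝ) + 1 ≤ k := by exact_mod_cast hx
    linarith
  refine ⟨D, ⟨hmax, hex⟩, fun H hH => ?_⟩
  exact hD₁ D hD1 (Fin n) G H T hH hmax
    (fun v hv => by
      rw [hT0 v hv, hsplit]
      push_cast
      linarith)
    (fun v x hv _ _ => by
      rw [hT0 v hv]
      have := hT1 x
      omega)
    (fun x hx => by
      have h2 := hlow x hx
      have h3 := hT1R x
      rw [hsplit]
      linarith)
    (fun x y hx _ _ => by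
      have h2 := hlow x hx
      have h3 := hT1R y
      rw [hsplit]
      linarith)

end Pool.Agent.Results.MP_db9399_co.LogDegreeRandomGraphs
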