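import Pool.Agent.Run7.h320.RG.G
import Pool.Agent.Results.MP_db9399_co.SparseLargeDegrees

/-!
# Extending total colourings of distance-3 matchings in random graphs

For the random graphs `G(n, q)` with `q ≤ 1 - c` and `(1 + log (1 + q n))² log n ≤ κ q n`, every
total colouring of every distance-3 matching with `Δ + 1` or more colours extends.

Proof. The second moment method gives a vertex of degree at least `t`, where the expected number of
such vertices is a large constant, and the number of vertices of degree at least `t - C log Δ` is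
bounded. So the starting theorem on graphs with few edges at the vertices of large degree applies.
-/

set_option autoImplicit false

namespace Pool.Agent.Results.MP_db9399_co.SparseRandomGraphs

/-- The colours `c` of the vertices and `d` of the edges form a total colouring of `G`: adjacent
vertices get different colours, distinct edges with a common end get different colours, and an edge
gets a colour different from the colours of its ends. (Values of `d` at pairs that are not edges of
`G` play no role.) -/
structure IsTotalColoring {V : Type} (G : SimpleGraph V) (c : V → ℕ) (d : Sym2 V → ℕ) :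
    Prop where
  vert : ∀ u v, G.Adj u v → c u ≠ c v
  edge : ∀ u v w, G.Adj u v → G.Adj u w → v ≠ w → d s(u, v) ≠ d s(u, w)
  inc : ∀ u v, G.Adj u v → d s(u, v) ≠ c u

/-- `H` (with vertex set `H.support`) is a distance-3 matching in `G`. -/
structure IsDistThreeMatching {V : Type} (G H : SimpleGraph V) : Prop where
  le : H ≤ G
  matching : ∀ u v w, H.Adj u v → H.Adj u w → v = w
  dist : ∀ u ∈ H.support, ∀ v ∈ H.support, u ≠ v → ¬ H.Adj u v → 3 ≤ G.edist u v

/-- Every total colouring of `H` with the colours `0, …, k - 1` extends to a total colouring of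
`G` with these colours. -/
def Extends {V : Type} (G H : SimpleGraph V) (k : ℕ) : Prop :=
  ∀ (c : V → ℕ) (d : Sym2 V → ℕ), IsTotalColoring H c d →
    (∀ v ∈ H.support, c v < k) → (∀ e ∈ H.edgeSet, d e < k) →
    ∃ (c' : V → ℕ) (d' : Sym2 V → ℕ), IsTotalColoring G c' d' ∧
      (∀ v ∈ H.support, c' v = c v) ∧ (∀ e ∈ H.edgeSet, d' e = d e) ∧
      (∀ v, c' v < k) ∧ ∀ e ∈ G.edgeSet, d' e < k

/-- The probability of the property `P` for the random graph `G(n, q)` on the vertices `0, …, n - 1`:
the graph `G` has the weight `q ^ m (1 - q) ^ (n (n - 1) / 2 - m)`, where `m` is the number of its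
edges. -/
noncomputable def prob {n : ℕ} (q : ℝ) (P : SimpleGraph (Fin n) → Prop) : ℝ := by
  classical exact ∑ G : SimpleGraph (Fin n), if P G then
    q ^ G.edgeSet.ncard * (1 - q) ^ (n.choose 2 - G.edgeSet.ncard) else 0

/-- `IsMaxDegree G D`: the maximum degree of `G` is `D`. -/
def IsMaxDegree {V : Type} (G : SimpleGraph V) (D : ℕ) : Prop :=
  (∀ v, (G.neighborSet v).ncard ≤ D) ∧ ∃ v, (G.neighborSet v).ncard = D

open Pool.Agent.Results.MP_db9399_co in
/-- the definitions are those of the starting file -/
theorem extends_iff {V : Type} (G H : SimpleGraph V) (k : ℕ)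
    (h : SparseLargeDegrees.Extends G H k) : Extends G H k := by
  intro c d hcd h1 h2
  obtain ⟨c', d', g1, g2⟩ := h c d ⟨hcd.vert, hcd.edge, hcd.inc⟩ h1 h2
  exact ⟨c', d', ⟨g1.vert, g1.edge, g1.inc⟩, g2⟩

open Pool.Agent.Results.MP_db9399_co in
/-- For all `c > 0` and `ε > 0` there are `κ > 0` and `n₀` such that for all `n ≥ n₀` and all `q`
with `0 < q ≤ 1 - c` and `(1 + log (1 + q n))² log n ≤ κ q n` the following holds with probability
at least `1 - ε` for the random graph `G(n, q)`: if `D` is its maximum degree, then for every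
`k ≥ D + 1` every total colouring with `k` colours of every distance-3 matching extends to a total
colouring of the graph with `k` colours. -/
theorem result (c ε : ℝ) (hc : 0 < c) (hε : 0 < ε) : ∃ κ : ℝ, 0 < κ ∧ ∃ n₀ : ℕ, ∀ n : ℕ, n₀ ≤ n →
    ∀ q : ℝ, 0 < q → q ≤ 1 - c →
    (1 + Real.log (1 + q * n)) ^ 2 * Real.log n ≤ κ * (q * n) →
    1 - ε ≤ prob q (fun G : SimpleGraph (Fin n) =>
      ∃ D, IsMaxDegree G D ∧ ∀ H : SimpleGraph (Fin n), IsDistThreeMatching G H →
        ∀ k : ℕ, D + 1 ≤ k → Extends G H k) := by
  obtain ⟨κ, hκ, n₀, h⟩ := Pool.Agent.Run7.h320.RG.whp c ε hc hε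
  refine ⟨κ, hκ, n₀, fun n hn q hq hqc hcond => ?_⟩
  refine h n hn q 1 hq hqc le_rfl (by push_cast; exact hcond) _ ?_
  intro G D B T h1 h2 hD h4 h5 h6 h7 h8
  refine ⟨D, ⟨h1, h2⟩, fun H hH k hk => extends_iff G H k ?_⟩
  refine SparseLargeDegrees.result.1 (Fin n) G H D T (2 * B) B ⟨hH.le, hH.matching, hH.dist⟩
    ⟨h1, h4, h6, fun v _ => h7 v, fun v hv => ?_⟩ k hk
  have e1 := h8 v hv
  have hD1 : (1 : ℝ) ≤ D := by exact_mod_cast hD
  have e2 : 0 ≤ Real.log D := Real.log_nonneg hD1
  have e3 : (0 : ℝ) ≤ B := Nat.cast_nonneg B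
  have e4 : (0 : ℝ) ≤ (B + 2) * Real.log D := by positivity
  push_cast at e1
  nlinarith

end Pool.Agent.Results.MP_db9399_co.SparseRandomGraphs
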