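import Mathlib
import Pool.Agent.Run7.h320.E.TP

set_option autoImplicit false

/-!
# Extending total colourings of distance-3 matchings when vertices have few large neighbours
-/

namespace Pool.Agent.Results.MP_db9399_co.TwoPartLists

open Finset Pool.Agent.Run7.h320.E

/-- The colours `c` of the vertices and `d` of the edges form a total colouring of `G`: adjacent
vertices get different colours, distinct edges with a common end get different colours, and an edge
gets a colour different from the colours of its ends. (Values of `d` at pairs that are not edges of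
`G` play no role.) -/
structure IsTotalColoring {V : Type} (G : SimpleGraph V) (c : V → ℕ) (d : Sym2 V → ℕ) :
    Prop where
  vert : ∀ u v, G.Adj u v → c u ≠ c v
  edge : ∀ u v w, G.Adj u v → G.Adj u w → v ≠ w → d s(u, v) ≠ d s(u, w)
  inc : ∀ u v, G.Adj u v → d s(u, v) ≠ c u

/-- `H` (with vertex set `H.support`) is a distance-3 matching in `G`. -/
structure IsDistThreeMatching {V : Type} (G H : SimpleGraph V) : Prop where
  le : H ≤ G
  matching : ∀ u v w, H.Adj u v → H.Adj u w → v = w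
  dist : ∀ u ∈ H.support, ∀ v ∈ H.support, u ≠ v → ¬ H.Adj u v → 3 ≤ G.edist u v

/-- Whenever every vertex and every edge of `G` has a list of at least `k` colours, every total
colouring of `H` (with any colours) extends to a total colouring of `G` in which the vertices and
edges outside `H` get colours from their lists. (With all lists equal to `{0, …, k - 1}` this says
that every total colouring of `H` with `k` colours extends to one of `G` with `k` colours.) -/
def ListExtends {V : Type} (G H : SimpleGraph V) (k : ℕ) : Prop :=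
  ∀ (L : V → Finset ℕ) (M : Sym2 V → Finset ℕ), (∀ v, k ≤ (L v).card) →
    (∀ e ∈ G.edgeSet, k ≤ (M e).card) →
    ∀ (c : V → ℕ) (d : Sym2 V → ℕ), IsTotalColoring H c d →
      ∃ (c' : V → ℕ) (d' : Sym2 V → ℕ), IsTotalColoring G c' d' ∧
        (∀ v ∈ H.support, c' v = c v) ∧ (∀ e ∈ H.edgeSet, d' e = d e) ∧
        (∀ v, v ∉ H.support → c' v ∈ L v) ∧
        ∀ e ∈ G.edgeSet, e ∉ H.edgeSet → d' e ∈ M e

theorem tcN (ε : ℝ) (hε : 0 < ε) : ∃ D₀ : ℕ, ∀ D : ℕ, D₀ ≤ D → ∀ (V : Type) [Fintype V]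
      (G H : SimpleGraph V) (T : Finset V), IsDistThreeMatching G H →
      (∀ v, (G.neighborSet v).ncard ≤ D) →
      (∀ v ∈ T, ({w : V | w ∈ T ∧ G.Adj v w}.ncard : ℝ) ≤ (1 - ε) * D) →
      (∀ v x, v ∈ T → x ∉ T → G.Adj v x →
        {w : V | w ∈ T ∧ G.Adj v w}.ncard + {w : V | w ∈ T ∧ G.Adj x w}.ncard + 2 ≤ D) →
      (∀ x, x ∉ T → ((G.neighborSet x).ncard : ℝ) + {w : V | w ∈ T ∧ G.Adj x w}.ncard ≤
        (1 - ε) * D) →
      (∀ x y, x ∉ T → y ∉ T → G.Adj x y → ((G.neighborSet x).ncard : ℝ) +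
        {w : V | w ∈ T ∧ G.Adj y w}.ncard ≤ (1 - ε) * D) →
      ∀ k : ℕ, D + 1 ≤ k → ListExtends G H k := by
  classical
  obtain ⟨ε', hε'⟩ : ∃ ε' : ℝ, ε' = min ε (1 / 2) := ⟨_, rfl⟩
  have he0 : 0 < ε' := by
    rw [hε']
    exact lt_min hε (by norm_num)
  have he1 : ε' ≤ 1 / 2 := by
    rw [hε']
    exact min_le_right _ _
  have hee : ε' ≤ ε := by
    rw [hε']
    exact min_le_left _ _
  obtain ⟨D₀, hD₀⟩ := tcp ε' he0 he1
  refine ⟨D₀, ?_⟩
  intro D hD V _ G H T hH hdeg h1 h2 h3 h4 k hk L M hL hM c d hcd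
  have hDR : (0 : ℝ) ≤ D := Nat.cast_nonneg _
  have hεD : (1 - ε) * (D : ℝ) ≤ (1 - ε') * D :=
    mul_le_mul_of_nonneg_right (by linarith) hDR
  obtain ⟨P, hP⟩ : ∃ P : Finset V, P = univ.filter (fun v => v ∈ H.support) := ⟨_, rfl⟩
  have memP : ∀ v, v ∈ P ↔ v ∈ H.support := fun v => by simp [hP]
  have memP' : ∀ v, v ∈ P ↔ ∃ w, H.Adj v w := by
    intro v
    rw [memP]
    exact Iff.rfl
  have p1 : ∀ u ∈ P, ∀ v ∈ P, G.Adj u v → H.Adj u v := by
    intro u hu v hv huv
    by_contra hnot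
    have h3 := hH.dist u ((memP u).1 hu) v ((memP v).1 hv) huv.ne hnot
    have h4 := SimpleGraph.Walk.edist_le (SimpleGraph.Walk.cons huv SimpleGraph.Walk.nil)
    have h5 := h3.trans h4
    simp only [SimpleGraph.Walk.length_cons, SimpleGraph.Walk.length_nil] at h5
    norm_cast at h5
  have p2 : ∀ u ∈ P, ∀ v ∈ P, ∀ w, G.Adj w u → G.Adj w v → u ≠ v → H.Adj u v := by
    intro u hu v hv w h1 h2 huv
    by_contra hnot
    have h3 := hH.dist u ((memP u).1 hu) v ((memP v).1 hv) huv hnot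
    have h4 := SimpleGraph.Walk.edist_le
      (SimpleGraph.Walk.cons h1.symm (SimpleGraph.Walk.cons h2 SimpleGraph.Walk.nil))
    have h5 := h3.trans h4
    simp only [SimpleGraph.Walk.length_cons, SimpleGraph.Walk.length_nil] at h5
    norm_cast at h5
  have p3 : ∀ v, dT G P v ≤ 2 := by
    intro v
    by_contra hcon
    unfold dT at hcon
    rw [not_le, Finset.two_lt_card] at hcon
    obtain ⟨p, hp, q, hq, r, hr, hpq, hpr, hqr⟩ := hcon
    rw [Finset.mem_filter, mem_nb] at hp hq hr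
    exact hqr (hH.matching p q r (p2 p hp.2 q hq.2 v hp.1 hq.1 hpq)
      (p2 p hp.2 r hr.2 v hp.1 hr.1 hpr))
  obtain ⟨c', d', c1, c2, c3, c4, c5, c6, c7⟩ := hD₀ D hD V G H T P L M c d hH.le memP'
    hH.matching p1 p3 (fun v => by rw [dg_ncard]; exact hdeg v) (fun v _ => hk.trans (hL v))
    (fun u v huv => hk.trans (hM _ huv)) hcd.vert hcd.inc (fun v hv => by
      rw [dT_ncard]
      exact (h1 v hv).trans hεD) (fun v x hv hx hvx => by
      rw [dT_ncard, dT_ncard]
      exact h2 v x hv hx hvx) (fun x hx => by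
      rw [dT_ncard, dg_ncard]
      exact (h3 x hx).trans hεD) (fun x y hx hy hxy => by
      rw [dT_ncard, dg_ncard]
      exact (h4 x y hx hy hxy).trans hεD)
  exact ⟨c', d', ⟨c1, c2, c3⟩, fun v hv => c4 v ((memP v).2 hv), c5,
    fun v hv => c6 v (fun h => hv ((memP v).1 h)), c7⟩

theorem tcA (δ : ℝ) (hδ : 0 < δ) : ∃ c : ℝ, 0 < c ∧ ∃ D₀ : ℕ, ∀ D : ℕ, D₀ ≤ D →
    ∀ (V : Type) [Fintype V] (G H : SimpleGraph V), IsDistThreeMatching G H →
      (∀ v, (G.neighborSet v).ncard ≤ D) →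
      (∀ v, ({w : V | (1 - δ) * D < (G.neighborSet w).ncard ∧ G.Adj v w}.ncard : ℝ) ≤
        c * D) → ∀ k : ℕ, D + 1 ≤ k → ListExtends G H k := by
  classical
  obtain ⟨δ', hδ'⟩ : ∃ δ' : ℝ, δ' = min δ 1 := ⟨_, rfl⟩
  have hd0 : 0 < δ' := by
    rw [hδ']
    exact lt_min hδ one_pos
  have hd1 : δ' ≤ 1 := by
    rw [hδ']
    exact min_le_right _ _
  have hdd : δ' ≤ δ := by
    rw [hδ']
    exact min_le_left _ _
  obtain ⟨D₀, h⟩ := tcN (δ' / 2) (by positivity)
  refine ⟨δ' / 4, by positivity, max D₀ 8, ?_⟩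
  intro D hD V _ G H hH hdeg hfew
  have hDR : (8 : ℝ) ≤ D := by exact_mod_cast (le_max_right _ _).trans hD
  obtain ⟨T, hT⟩ : ∃ T : Finset V, T = univ.filter (fun w => (1 - δ) * D <
    (G.neighborSet w).ncard) := ⟨_, rfl⟩
  have hTs : ∀ v, {w : V | w ∈ T ∧ G.Adj v w} =
      {w : V | (1 - δ) * D < (G.neighborSet w).ncard ∧ G.Adj v w} := by
    intro v
    ext w
    simp [hT]
  have hTt : ∀ v, ({w : V | w ∈ T ∧ G.Adj v w}.ncard : ℝ) ≤ δ' / 4 * D := by
    intro v
    rw [hTs]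
    exact hfew v
  have hδD : δ' * (D : ℝ) ≤ 1 * D := mul_le_mul_of_nonneg_right hd1 (by linarith)
  have hδD0 : 0 ≤ δ' * (D : ℝ) := by positivity
  have hsm : ∀ x, x ∉ T → ((G.neighborSet x).ncard : ℝ) ≤ (1 - δ') * D := by
    intro x hx
    by_contra hcon
    push Not at hcon
    apply hx
    rw [hT, mem_filter]
    refine ⟨mem_univ _, lt_of_le_of_lt ?_ hcon⟩
    exact mul_le_mul_of_nonneg_right (by linarith) (by linarith)
  refine h D ((le_max_left _ _).trans hD) V G H T hH hdeg ?_ ?_ ?_ ?_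
  · intro v _
    have := hTt v
    linarith
  · intro v x _ _ _
    have h5 := hTt v
    have h6 := hTt x
    have h7 : ({w : V | w ∈ T ∧ G.Adj v w}.ncard : ℝ) + {w : V | w ∈ T ∧ G.Adj x w}.ncard + 2
        ≤ D := by
      linarith
    exact_mod_cast h7
  · intro x hx
    have h5 := hTt x
    have h6 := hsm x hx
    linarith
  · intro x y hx _ _
    have h5 := hTt y
    have h6 := hsm x hx
    linarith

theorem tcB (ε : ℝ) (hε : 0 < ε) : ∃ D₀ : ℕ, ∀ D : ℕ, D₀ ≤ D →
    ∀ (V : Type) [Fintype V] (G H : SimpleGraph V), IsDistThreeMatching G H →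
      (∀ v, (G.neighborSet v).ncard ≤ D) →
      (∀ v, (1 - ε) * D / 2 < (G.neighborSet v).ncard →
        2 * {w : V | (1 - ε) * D / 2 < (G.neighborSet w).ncard ∧ G.Adj v w}.ncard ≤ D) →
      ∀ k : ℕ, D + 1 ≤ k → ListExtends G H k := by
  classical
  obtain ⟨ε', hε'⟩ : ∃ ε' : ℝ, ε' = min ε (1 / 2) := ⟨_, rfl⟩
  have he0 : 0 < ε' := by
    rw [hε']
    exact lt_min hε (by norm_num)
  have he1 : ε' ≤ 1 / 2 := by
    rw [hε']
    exact min_le_right _ _
  have hee : ε' ≤ ε := by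
    rw [hε']
    exact min_le_left _ _
  obtain ⟨D₀, h⟩ := tcN ε' he0
  refine ⟨max D₀ ⌈4 / ε'⌉₊, ?_⟩
  intro D hD V _ G H hH hdeg hfew
  have hDR : (0 : ℝ) ≤ D := Nat.cast_nonneg _
  have hpD : 4 ≤ ε' * D := by
    have h5 : (4 : ℝ) / ε' ≤ (D : ℝ) :=
      (Nat.le_ceil _).trans (by exact_mod_cast (le_max_right _ _).trans hD)
    rw [div_le_iff₀ he0] at h5
    linarith
  have heD : ε' * (D : ℝ) ≤ 1 / 2 * D := mul_le_mul_of_nonneg_right he1 hDR
  obtain ⟨T, hT⟩ : ∃ T : Finset V, T = univ.filter (fun w => (1 - ε) * D / 2 <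
    (G.neighborSet w).ncard) := ⟨_, rfl⟩
  have hTs : ∀ v, {w : V | w ∈ T ∧ G.Adj v w} =
      {w : V | (1 - ε) * D / 2 < (G.neighborSet w).ncard ∧ G.Adj v w} := by
    intro v
    ext w
    simp [hT]
  have hT1 : ∀ v ∈ T, ({w : V | w ∈ T ∧ G.Adj v w}.ncard : ℝ) ≤ 1 / 2 * D := by
    intro v hv
    rw [hTs]
    rw [hT, mem_filter] at hv
    have h5 := hfew v hv.2
    have h6 : (2 : ℝ) * {w : V | (1 - ε) * D / 2 < (G.neighborSet w).ncard ∧
        G.Adj v w}.ncard ≤ D := by exact_mod_cast h5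
    linarith
  have hsm : ∀ x, x ∉ T → ((G.neighborSet x).ncard : ℝ) ≤ (1 - ε') * D / 2 := by
    intro x hx
    by_contra hcon
    push Not at hcon
    apply hx
    rw [hT, mem_filter]
    refine ⟨mem_univ _, lt_of_le_of_lt ?_ hcon⟩
    apply div_le_div_of_nonneg_right _ (by positivity)
    exact mul_le_mul_of_nonneg_right (by linarith) hDR
  have hTd : ∀ x, ({w : V | w ∈ T ∧ G.Adj x w}.ncard : ℝ) ≤ (G.neighborSet x).ncard := by
    intro x
    have : {w : V | w ∈ T ∧ G.Adj x w}.ncard ≤ (G.neighborSet x).ncard :=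
      Set.ncard_le_ncard (fun w hw => hw.2) (Set.toFinite _)
    exact_mod_cast this
  refine h D ((le_max_left _ _).trans hD) V G H T hH hdeg ?_ ?_ ?_ ?_
  · intro v hv
    have := hT1 v hv
    linarith
  · intro v x hv hx _
    have h5 := hT1 v hv
    have h6 := (hTd x).trans (hsm x hx)
    have h7 : ({w : V | w ∈ T ∧ G.Adj v w}.ncard : ℝ) + {w : V | w ∈ T ∧ G.Adj x w}.ncard + 2
        ≤ D := by
      linarith
    exact_mod_cast h7
  · intro x hx
    have h5 := (hTd x).trans (hsm x hx)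
    have h6 := hsm x hx
    linarith
  · intro x y hx hy _
    have h5 := (hTd y).trans (hsm y hy)
    have h6 := hsm x hx
    linarith

/-- **Extending total colourings of distance-3 matchings, with lists of `k ≥ D + 1` colours.**
Let `G` be a graph of large maximum degree (at most `D`) on any number of vertices and let `H` be
any distance-3 matching in `G`. Then every total colouring of `H` extends to one of `G` from lists
of `k ≥ D + 1` colours in each of the following cases.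

(1) There is a set `T` of vertices such that every vertex of `T` has at most `(1 - ε) D` neighbours
in `T`, adjacent vertices `v` in `T` and `x` outside `T` satisfy `d_T(v) + d_T(x) + 2 ≤ D`, every
vertex `x` outside `T` satisfies `deg x + d_T(x) ≤ (1 - ε) D`, and adjacent vertices `x`, `y`
outside `T` satisfy `deg x + d_T(y) ≤ (1 - ε) D`, where `d_T(x)` is the number of neighbours of `x`
in `T`.

(2) For every `δ > 0` there is `c > 0`: every vertex has at most `c D` neighbours of degree more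
than `(1 - δ) D`.

(3) Every vertex of degree more than `(1 - ε) D / 2` has at most `D / 2` neighbours of degree more
than `(1 - ε) D / 2`. -/
theorem result :
    (∀ ε : ℝ, 0 < ε → ∃ D₀ : ℕ, ∀ D : ℕ, D₀ ≤ D → ∀ (V : Type) [Fintype V]
      (G H : SimpleGraph V) (T : Finset V), IsDistThreeMatching G H →
      (∀ v, (G.neighborSet v).ncard ≤ D) →
      (∀ v ∈ T, ({w : V | w ∈ T ∧ G.Adj v w}.ncard : ℝ) ≤ (1 - ε) * D) →
      (∀ v x, v ∈ T → x ∉ T → G.Adj v x →
        {w : V | w ∈ T ∧ G.Adj v w}.ncard + {w : V | w ∈ T ∧ G.Adj x w}.ncard + 2 ≤ D) →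
      (∀ x, x ∉ T → ((G.neighborSet x).ncard : ℝ) + {w : V | w ∈ T ∧ G.Adj x w}.ncard ≤
        (1 - ε) * D) →
      (∀ x y, x ∉ T → y ∉ T → G.Adj x y → ((G.neighborSet x).ncard : ℝ) +
        {w : V | w ∈ T ∧ G.Adj y w}.ncard ≤ (1 - ε) * D) →
      ∀ k : ℕ, D + 1 ≤ k → ListExtends G H k) ∧
    (∀ δ : ℝ, 0 < δ → ∃ c : ℝ, 0 < c ∧ ∃ D₀ : ℕ, ∀ D : ℕ, D₀ ≤ D →
      ∀ (V : Type) [Fintype V] (G H : SimpleGraph V), IsDistThreeMatching G H →
      (∀ v, (G.neighborSet v).ncard ≤ D) →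
      (∀ v, ({w : V | (1 - δ) * D < (G.neighborSet w).ncard ∧ G.Adj v w}.ncard : ℝ) ≤
        c * D) → ∀ k : ℕ, D + 1 ≤ k → ListExtends G H k) ∧
    (∀ ε : ℝ, 0 < ε → ∃ D₀ : ℕ, ∀ D : ℕ, D₀ ≤ D →
      ∀ (V : Type) [Fintype V] (G H : SimpleGraph V), IsDistThreeMatching G H →
      (∀ v, (G.neighborSet v).ncard ≤ D) →
      (∀ v, (1 - ε) * D / 2 < (G.neighborSet v).ncard →
        2 * {w : V | (1 - ε) * D / 2 < (G.neighborSet w).ncard ∧ G.Adj v w}.ncard ≤ D) →
      ∀ k : ℕ, D + 1 ≤ k → ListExtends G H k) :=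
  ⟨tcN, tcA, tcB⟩

end Pool.Agent.Results.MP_db9399_co.TwoPartLists
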